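import Pool.Agent.W536.LM.Stm

set_option autoImplicit false

open Polynomial W536.LM

namespace Pool.Agent.W806.LM

/-- the complex numbers algebraic over a subalgebra -/
def FF (A : Subalgebra ℚ ℂ) : Subfield ℂ where
  carrier := {z | IsAlgebraic A z}
  mul_mem' := fun ha hb => ha.mul hb
  one_mem' := isAlgebraic_one
  add_mem' := fun ha hb => ha.add hb
  zero_mem' := isAlgebraic_zero
  neg_mem' := fun ha => ha.neg
  inv_mem' := fun _ ha => IsAlgebraic.inv ha

lemma mem_FF (A : Subalgebra ℚ ℂ) (z : ℂ) : z ∈ FF A ↔ IsAlgebraic A z := Iff.rfl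

lemma acl_FF (A : Subalgebra ℚ ℂ) : ACl (FF A) := by
  intro p hp hk z hz
  rw [mem_FF]
  let B := Subalgebra.algebraicClosure A ℂ
  have hl : p ∈ Polynomial.lifts (algebraMap B ℂ) := by
    rw [Polynomial.lifts_iff_coeff_lifts]
    intro k
    exact ⟨⟨p.coeff k, hk k⟩, rfl⟩
  obtain ⟨q, hq⟩ := (Polynomial.mem_lifts p).1 hl
  have hB : IsAlgebraic B z := by
    refine ⟨q, ?_, ?_⟩
    · rintro rfl
      rw [Polynomial.map_zero] at hq
      exact hp hq.symm
    · rw [Polynomial.aeval_def, ← Polynomial.eval_map, hq]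
      exact hz
  exact hB.restrictScalars A

/-- numbering of the pivot edges -/
def me (k : ℕ) : Fin 13 := if k % 6 = 0 then 6 else if k % 6 = 1 then 9 else
  if k % 6 = 2 then 7 else if k % 6 = 3 then 10 else if k % 6 = 4 then 8 else 11

/-- numbering of the hexagon edges -/
def he (k : ℕ) : Fin 13 := ⟨k % 6, by omega⟩

lemma dd_symm {K : Type} [CommRing K] (p : Fin 8 → Fin 2 → K) (i j : Fin 8) :
    dd p i j = dd p j i := by
  unfold dd
  refine Finset.sum_congr rfl fun k _ => ?_
  ring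

lemma m_eq {K : Type} [CommRing K] (p : Fin 8 → Fin 2 → K) (k : ℕ) :
    (parOf p).m k = dd p (ed (me k)).1 (ed (me k)).2 := by
  obtain ⟨q, r, hr, rfl⟩ : ∃ q r, r < 6 ∧ k = 6 * q + r := ⟨k / 6, k % 6, by omega, by omega⟩
  have h1 : (6 * q + r) % 6 = r := by omega
  have h2 : (6 * q + r) % 2 = r % 2 := by omega
  simp only [parOf, vx, pv, me, h1, h2]
  interval_cases r <;> rfl

lemma e_eq {K : Type} [CommRing K] (p : Fin 8 → Fin 2 → K) (k : ℕ) :
    (parOf p).e k = dd p (ed (he k)).1 (ed (he k)).2 := by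
  obtain ⟨q, r, hr, rfl⟩ : ∃ q r, r < 6 ∧ k = 6 * q + r := ⟨k / 6, k % 6, by omega, by omega⟩
  have h1 : (6 * q + r) % 6 = r := by omega
  have h2 : (6 * q + r + 1) % 6 = (r + 1) % 6 := by omega
  simp only [parOf, vx, he, h1, h2]
  interval_cases r <;> rfl

lemma me_ge (k : ℕ) : 6 ≤ ((me k : Fin 13) : ℕ) ∧ ((me k : Fin 13) : ℕ) ≤ 11 := by
  unfold me
  split_ifs <;> simp

lemma he_lt (k : ℕ) : ((he k : Fin 13) : ℕ) < 6 := by
  unfold he
  exact Nat.mod_lt _ (by norm_num)

theorem t_GEN : S_GEN := by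
  intro p h
  set ell : Fin 13 → ℝ := fun a => dd p (ed a).1 (ed a).2 with hell
  have hinj : Function.Injective ell := h.injective
  have hpos : ∀ a, 0 < ell a := by
    intro a
    have h1 : ell a ≠ 0 := h.ne_zero a
    have h2 : 0 ≤ ell a := by
      simp only [hell, dd]
      exact Finset.sum_nonneg fun k _ => sq_nonneg _
    exact lt_of_le_of_ne h2 h1.symm
  have hL : (parOf p).L = ell 12 := rfl
  have hm : ∀ k, (parOf p).m k = ell (me k) := fun k => m_eq p k
  have he' : ∀ k, (parOf p).e k = ell (he k) := fun k => e_eq p k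
  refine ⟨?_, ?_, ?_, ?_, ?_, ?_⟩
  · rw [hL]; exact hpos _
  · intro k; rw [hm]; exact hpos _
  · intro k hk
    rw [hm, hL] at hk
    have := congrArg Fin.val (hinj hk)
    have h2 := (me_ge k).2
    have h3 : ((12 : Fin 13) : ℕ) = 12 := rfl
    omega
  · intro k _ hk
    rw [hm, he'] at hk
    have := congrArg Fin.val (hinj hk)
    have h1 := (me_ge k).1
    have h2 := he_lt k
    omega
  · intro k _ hk
    rw [hm, he'] at hk
    have := congrArg Fin.val (hinj hk)
    have h1 := (me_ge (k + 1)).1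
    have h2 := he_lt k
    omega
  · let ec : Fin 13 → ℂ := fun a => ((ell a : ℝ) : ℂ)
    have hc : AlgebraicIndependent ℚ ec := by
      have h1 := h.map' (f := (Complex.ofRealAm.restrictScalars ℚ : ℝ →ₐ[ℚ] ℂ))
        (fun x y hxy => Complex.ofReal_injective hxy)
      exact h1
    let A : ℕ → Subalgebra ℚ ℂ := fun j => Algebra.adjoin ℚ (ec '' {a : Fin 13 | (a : ℕ) ≠ j})
    have hin : ∀ (j : ℕ) (a : Fin 13), (a : ℕ) ≠ j → ec a ∈ FF (A j) := by
      intro j a ha
      rw [mem_FF]
      have h1 : ec a ∈ A j := Algebra.subset_adjoin ⟨a, ha, rfl⟩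
      exact isAlgebraic_algebraMap (⟨ec a, h1⟩ : A j)
    refine ⟨fun j => FF (A j), fun j hj => ⟨acl_FF _, ?_, ?_, ?_, ?_⟩⟩
    · have : (parOf p).cx.L = ec 12 := rfl
      rw [this]
      exact hin j 12 (by
        have h3 : ((12 : Fin 13) : ℕ) = 12 := rfl
        omega)
    · intro k
      have : (parOf p).cx.m k = ec (me k) := by
        show (((parOf p).m k : ℝ) : ℂ) = ((ell (me k) : ℝ) : ℂ)
        rw [hm]
      rw [this]
      exact hin j _ (by have := (me_ge k).1; omega)
    · intro k hk hkj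
      have : (parOf p).cx.e k = ec (he k) := by
        show (((parOf p).e k : ℝ) : ℂ) = ((ell (he k) : ℝ) : ℂ)
        rw [he']
      rw [this]
      exact hin j _ (by
        have : ((he k : Fin 13) : ℕ) = k % 6 := rfl
        omega)
    · have : (parOf p).cx.e j = ec (he j) := by
        show (((parOf p).e j : ℝ) : ℂ) = ((ell (he j) : ℝ) : ℂ)
        rw [he']
      rw [this, mem_FF]
      have h1 := hc.transcendental_adjoin (s := {a : Fin 13 | (a : ℕ) ≠ j}) (i := he j) (by
        simp only [Set.mem_ofPred_eq, not_not]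
        show j % 6 = j
        omega)
      exact h1

end Pool.Agent.W806.LM
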